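import Pool.Agent.H98.ABCR.Stmts3

/-!
# ABCR: sieving the base of a power, all exponents free
-/

set_option autoImplicit false

namespace Pool.Agent.H98.ABCR

open Finset Polynomial

/-- the condition modulo `l` -/
private def fsv_Om (s1 s2 s3 : ℤ) (m n e : ℕ) (κ : Fin e × Fin e × Fin e) (l x : ℕ) : Prop :=
  (x : ZMod l) = 0 ∨ ((x : ZMod l) ≠ 0 ∧ ∃ z1 z2 z3 : ZMod l, z1 ^ ((l - 1) / e) = 1 ∧
    z2 ^ ((l - 1) / e) = 1 ∧ z3 ^ ((l - 1) / e) = 1 ∧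
    (s1 : ZMod l) * z1 * (x : ZMod l) ^ (κ.1 : ℕ) +
      ((s2 : ZMod l) * (m : ZMod l) ^ (κ.2.1 : ℕ)) * z2 +
      ((s3 : ZMod l) * (n : ZMod l) ^ (κ.2.2 : ℕ)) * z3 = 0)

private theorem fsv_unit {l e : ℕ} (hl : l.Prime) (hel : e ∣ l - 1) {y : ZMod l} (hy : y ≠ 0)
    (k : ℕ) : (y ^ (e * k)) ^ ((l - 1) / e) = 1 := by
  have : Fact l.Prime := ⟨hl⟩
  have h1 : e * k * ((l - 1) / e) = (l - 1) * k := by
    rw [mul_right_comm, Nat.mul_div_cancel' hel]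
  rw [← pow_mul, h1, pow_mul, ZMod.pow_card_sub_one_eq_one hy, one_pow]

private theorem fsv_split {l e : ℕ} (y : ZMod l) (E : ℕ) :
    y ^ E = y ^ (E % e) * y ^ (e * (E / e)) := by
  rw [← pow_add, Nat.mod_add_div]

private theorem fsv_mem {s1 s2 s3 : ℤ} {m n e l w : ℕ} (he : 0 < e) (hl : l.Prime)
    (hel : e ∣ l - 1) (hm : ¬ l ∣ m) (hn : ¬ l ∣ n) {i j k : ℕ}
    (h : s1 * (w : ℤ) ^ i + s2 * (m : ℤ) ^ j + s3 * (n : ℤ) ^ k = 0) :
    fsv_Om s1 s2 s3 m n e (⟨i % e, Nat.mod_lt _ he⟩, ⟨j % e, Nat.mod_lt _ he⟩,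
      ⟨k % e, Nat.mod_lt _ he⟩) l w := by
  have : Fact l.Prime := ⟨hl⟩
  by_cases hw : (w : ZMod l) = 0
  · exact Or.inl hw
  · right
    have hm0 : (m : ZMod l) ≠ 0 := by rwa [Ne, ZMod.natCast_eq_zero_iff]
    have hn0 : (n : ZMod l) ≠ 0 := by rwa [Ne, ZMod.natCast_eq_zero_iff]
    refine ⟨hw, (w : ZMod l) ^ (e * (i / e)), (m : ZMod l) ^ (e * (j / e)),
      (n : ZMod l) ^ (e * (k / e)), fsv_unit hl hel hw _, fsv_unit hl hel hm0 _,
      fsv_unit hl hel hn0 _, ?_⟩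
    have h1 : (s1 : ZMod l) * (w : ZMod l) ^ i + (s2 : ZMod l) * (m : ZMod l) ^ j +
        (s3 : ZMod l) * (n : ZMod l) ^ k = 0 := by
      have := congrArg (Int.cast : ℤ → ZMod l) h
      push_cast at this
      exact this
    rw [fsv_split (e := e) (w : ZMod l) i, fsv_split (e := e) (m : ZMod l) j,
      fsv_split (e := e) (n : ZMod l) k] at h1
    rw [← h1]
    ring

private theorem fsv_cast_unit {l : ℕ} (hl : l.Prime) {s : ℤ} (hs : IsUnit s) :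
    (s : ZMod l) ≠ 0 := by
  have : Fact l.Prime := ⟨hl⟩
  rcases Int.isUnit_iff.1 hs with rfl | rfl
  · simp
  · simp

private theorem fsv_card {s1 s2 s3 : ℤ} {m n e l : ℕ} (hLOC : S_LOC) (hl : l.Prime)
    (h1 : IsUnit s1) (h2 : IsUnit s2) (h3 : IsUnit s3)
    (hel : e ∣ l - 1) (hm : ¬ l ∣ m) (hn : ¬ l ∣ n) (κ : Fin e × Fin e × Fin e)
    (hg : Nat.gcd (κ.1 : ℕ) e = 1) [DecidablePred (fsv_Om s1 s2 s3 m n e κ l)] :
    (((range l).filter (fsv_Om s1 s2 s3 m n e κ l)).card : ℝ) ≤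
      2 * (((l - 1) / e : ℕ) : ℝ) ^ 2 := by
  classical
  have : Fact l.Prime := ⟨hl⟩
  have hm0 : (m : ZMod l) ≠ 0 := by rwa [Ne, ZMod.natCast_eq_zero_iff]
  have hn0 : (n : ZMod l) ≠ 0 := by rwa [Ne, ZMod.natCast_eq_zero_iff]
  have hloc := hLOC l e ((l - 1) / e) κ.1 (s1 : ZMod l)
    ((s2 : ZMod l) * (m : ZMod l) ^ (κ.2.1 : ℕ)) ((s3 : ZMod l) * (n : ZMod l) ^ (κ.2.2 : ℕ))
    (Nat.mul_div_cancel' hel).symm (fsv_cast_unit hl h1)
    (mul_ne_zero (fsv_cast_unit hl h2) (pow_ne_zero _ hm0))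
    (mul_ne_zero (fsv_cast_unit hl h3) (pow_ne_zero _ hn0))
  rw [hg, mul_one] at hloc
  set G : Finset (ZMod l) := (univ : Finset (ZMod l)).filter (fun m' => m' ≠ 0 ∧
    ∃ z1 z2 z3 : ZMod l, z1 ^ ((l - 1) / e) = 1 ∧ z2 ^ ((l - 1) / e) = 1 ∧
    z3 ^ ((l - 1) / e) = 1 ∧ (s1 : ZMod l) * z1 * m' ^ (κ.1 : ℕ) +
      ((s2 : ZMod l) * (m : ZMod l) ^ (κ.2.1 : ℕ)) * z2 +
      ((s3 : ZMod l) * (n : ZMod l) ^ (κ.2.2 : ℕ)) * z3 = 0) with hG
  have hcard : ((range l).filter (fsv_Om s1 s2 s3 m n e κ l)).card ≤ (insert 0 G).card := by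
    refine Finset.card_le_card_of_injOn (fun x : ℕ => (x : ZMod l)) ?_ ?_
    · intro x hx
      rw [Finset.mem_coe, Finset.mem_filter] at hx
      rw [Finset.mem_coe, Finset.mem_insert]
      rcases hx.2 with h | h
      · exact Or.inl h
      · exact Or.inr (Finset.mem_filter.2 ⟨Finset.mem_univ _, h⟩)
    · intro x hx x' hx' h
      rw [Finset.mem_coe, Finset.mem_filter, Finset.mem_range] at hx hx'
      have h3 := (ZMod.natCast_eq_natCast_iff' x x' l).1 h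
      rwa [Nat.mod_eq_of_lt hx.1, Nat.mod_eq_of_lt hx'.1] at h3
  have hs : 1 ≤ (l - 1) / e := by
    have h5 : 0 < l - 1 := by
      have := hl.two_le
      omega
    exact Nat.div_pos (Nat.le_of_dvd h5 hel) (Nat.pos_of_dvd_of_pos hel h5)
  have h4 : ((range l).filter (fsv_Om s1 s2 s3 m n e κ l)).card ≤ 2 * ((l - 1) / e) ^ 2 := by
    have h5 := (hcard.trans (Finset.card_insert_le 0 G)).trans (Nat.add_le_add_right hloc 1)
    have h6 : 1 ≤ ((l - 1) / e) ^ 2 := Nat.one_le_pow _ _ hs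
    omega
  exact_mod_cast h4

theorem fsv_thm (hLOC : S_LOC) (hCRT : S_CRT) : S_FSV := by
  classical
  intro e m n s1 s2 s3 Y L W he h1 h2 h3 hL hY hW
  have hL0 : ∀ l ∈ L, (0 : ℝ) < l := fun l hl => by exact_mod_cast (hL l hl).1.pos
  have hY0 : 0 ≤ Y := le_trans (Finset.prod_nonneg fun l hl => (hL0 l hl).le) hY
  have hB0 : 0 ≤ 2 * Y * ∏ l ∈ L, 2 * (((l - 1) / e : ℕ) : ℝ) ^ 2 / l := by
    refine mul_nonneg (by positivity) (Finset.prod_nonneg fun l hl => ?_)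
    have := hL0 l hl
    positivity
  have hch : ∀ w : ℕ, ∃ v : ℕ × ℕ × ℕ, w ∈ W → Nat.gcd v.1 e = 1 ∧
      s1 * (w : ℤ) ^ v.1 + s2 * (m : ℤ) ^ v.2.1 + s3 * (n : ℤ) ^ v.2.2 = 0 := by
    intro w
    by_cases hw : w ∈ W
    · obtain ⟨-, -, i, j, k, hg, h⟩ := hW w hw
      exact ⟨(i, j, k), fun _ => ⟨hg, h⟩⟩
    · exact ⟨(0, 0, 0), fun h => absurd h hw⟩
  choose V hV using hch
  let code : ℕ → Fin e × Fin e × Fin e := fun w =>
    (⟨(V w).1 % e, Nat.mod_lt _ he⟩, ⟨(V w).2.1 % e, Nat.mod_lt _ he⟩,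
      ⟨(V w).2.2 % e, Nat.mod_lt _ he⟩)
  have hfib : ∀ κ : Fin e × Fin e × Fin e,
      (((W.filter fun w => code w = κ).card : ℕ) : ℝ) ≤
        2 * Y * ∏ l ∈ L, 2 * (((l - 1) / e : ℕ) : ℝ) ^ 2 / l := by
    intro κ
    rcases (W.filter fun w => code w = κ).eq_empty_or_nonempty with h0 | ⟨w0, hw0⟩
    · rw [h0, Finset.card_empty, Nat.cast_zero]
      exact hB0
    · rw [Finset.mem_filter] at hw0
      have hgκ : Nat.gcd (κ.1 : ℕ) e = 1 := by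
        rw [← hw0.2]
        have h1 : ((code w0).1 : ℕ) = (V w0).1 % e := rfl
        rw [h1, ← Nat.gcd_rec e, Nat.gcd_comm]
        exact (hV w0 hw0.1).1
      have h5 := hCRT L (fsv_Om s1 s2 s3 m n e κ) (fun l => 2 * (((l - 1) / e : ℕ) : ℝ) ^ 2) Y
        (fun l hl => (hL l hl).1)
        (fun l hl => fsv_card hLOC (hL l hl).1 h1 h2 h3 (hL l hl).2.1 (hL l hl).2.2.1
          (hL l hl).2.2.2 κ hgκ) hY
      refine le_trans ?_ h5
      have h6 : (W.filter fun w => code w = κ) ⊆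
          (Icc 1 ⌊Y⌋₊).filter (fun x => ∀ l ∈ L, fsv_Om s1 s2 s3 m n e κ l (x % l)) := by
        intro w hw
        rw [Finset.mem_filter] at hw
        obtain ⟨hw1, hwY, -⟩ := hW w hw.1
        rw [Finset.mem_filter, Finset.mem_Icc]
        refine ⟨⟨hw1, Nat.le_floor hwY⟩, fun l hl => ?_⟩
        have h7 := fsv_mem he (hL l hl).1 (hL l hl).2.1 (hL l hl).2.2.1 (hL l hl).2.2.2
          (hV w hw.1).2
        have h8 : code w = κ := hw.2
        have h9 : fsv_Om s1 s2 s3 m n e (code w) l w := h7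
        rw [h8] at h9
        unfold fsv_Om at h9 ⊢
        rw [ZMod.natCast_mod]
        exact h9
      exact_mod_cast Finset.card_le_card h6
  have h6 := Finset.card_eq_sum_card_fiberwise (f := code) (s := W) (t := Finset.univ)
    (fun _ _ => Finset.mem_coe.2 (Finset.mem_univ _))
  rw [h6]
  push_cast
  refine (Finset.sum_le_sum fun κ _ => hfib κ).trans ?_
  rw [Finset.sum_const, Finset.card_univ, nsmul_eq_mul]
  have hcard : Fintype.card (Fin e × Fin e × Fin e) = e ^ 3 := by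
    rw [Fintype.card_prod, Fintype.card_prod, Fintype.card_fin]
    ring
  rw [hcard]
  push_cast
  exact le_rfl

end Pool.Agent.H98.ABCR
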