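import Pool.Agent.H98.ABCR.Stmts2

/-!
ABCR, module LAB: the average cost of the labels.  Proof by Rankin's trick: the sum over `n ≤ Y` is
at most `Y^ε` times an Euler product at `1 + ε`, which is bounded uniformly in `k`.
-/

set_option autoImplicit false

namespace Pool.Agent.H98.ABCR

open Finset Polynomial

/-- the multiplicative function of the Euler product -/
noncomputable def labf (K k : ℕ) (s : ℝ) (n : ℕ) : ℝ :=
  (K : ℝ) ^ om n * (k : ℝ) ^ omk k n * ((n : ℝ) ^ s)⁻¹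

private lemma labf_nonneg (K k : ℕ) (s : ℝ) (n : ℕ) : 0 ≤ labf K k s n := by
  unfold labf; positivity

private lemma labf_one (K k : ℕ) (s : ℝ) : labf K k s 1 = 1 := by
  simp [labf, om, omk]

private lemma labf_mul (K k : ℕ) (s : ℝ) {m n : ℕ} (h : Nat.Coprime m n) :
    labf K k s (m * n) = labf K k s m * labf K k s n := by
  have h1 : (m * n).primeFactors = m.primeFactors ∪ n.primeFactors := h.primeFactors_mul
  have h2 : Disjoint m.primeFactors n.primeFactors := h.disjoint_primeFactors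
  have h3 : om (m * n) = om m + om n := by
    unfold om
    rw [h1, Finset.card_union_of_disjoint h2]
  have h4 : omk k (m * n) = omk k m + omk k n := by
    unfold omk
    rw [h1, Finset.filter_union, Finset.card_union_of_disjoint]
    exact Finset.disjoint_filter_filter h2
  unfold labf
  rw [h3, h4, pow_add, pow_add]
  push_cast
  rw [Real.mul_rpow (by positivity) (by positivity), mul_inv]
  ring

/-- the cost of the prime `p` -/
noncomputable def labc (K k p : ℕ) : ℝ := K * (if p % k = 1 then (k : ℝ) else 1)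

private lemma labf_pow (K k : ℕ) (s : ℝ) {p : ℕ} (hp : p.Prime) (a : ℕ) :
    labf K k s (p ^ (a + 1)) = labc K k p * ((p : ℝ) ^ s)⁻¹ * (((p : ℝ) ^ s)⁻¹) ^ a := by
  have h1 : (p ^ (a + 1)).primeFactors = {p} := Nat.primeFactors_prime_pow (Nat.succ_ne_zero a) hp
  have h2 : om (p ^ (a + 1)) = 1 := by unfold om; rw [h1]; simp
  have h3 : (k : ℝ) ^ omk k (p ^ (a + 1)) = if p % k = 1 then (k : ℝ) else 1 := by
    unfold omk
    rw [h1, Finset.filter_singleton]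
    split_ifs <;> simp
  unfold labf labc
  rw [h2, h3]
  have h4 : (((p ^ (a + 1) : ℕ) : ℝ) ^ s)⁻¹ = ((p : ℝ) ^ s)⁻¹ * (((p : ℝ) ^ s)⁻¹) ^ a := by
    push_cast
    rw [← Real.rpow_natCast, ← Real.rpow_mul (by positivity), mul_comm ((a + 1 : ℕ) : ℝ) s,
      Real.rpow_mul (by positivity), Real.rpow_natCast, ← inv_pow, pow_succ]
    ring
  rw [h4]
  ring

private lemma lab_r (s : ℝ) (hs : 1 < s) {p : ℕ} (hp : p.Prime) :
    0 < ((p : ℝ) ^ s)⁻¹ ∧ ((p : ℝ) ^ s)⁻¹ ≤ 1 / 2 := by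
  have hp2 : (2 : ℝ) ≤ p := by exact_mod_cast hp.two_le
  have h1 : (2 : ℝ) ≤ (p : ℝ) ^ s := by
    calc (2 : ℝ) ≤ p := hp2
      _ = (p : ℝ) ^ (1 : ℝ) := (Real.rpow_one _).symm
      _ ≤ (p : ℝ) ^ s := Real.rpow_le_rpow_of_exponent_le (by linarith) hs.le
  constructor
  · positivity
  · rw [one_div]
    exact inv_anti₀ (by norm_num) h1

private lemma lab_sum (K k : ℕ) (s : ℝ) (hs : 1 < s) {p : ℕ} (hp : p.Prime) :
    Summable (fun n : ℕ => labf K k s (p ^ n)) ∧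
      ∑' n : ℕ, labf K k s (p ^ n) ≤ Real.exp (2 * labc K k p * ((p : ℝ) ^ s)⁻¹) := by
  obtain ⟨r0, r1⟩ := lab_r s hs hp
  set r : ℝ := ((p : ℝ) ^ s)⁻¹ with hr
  have hc : 0 ≤ labc K k p := by
    unfold labc
    positivity
  have h1 : HasSum (fun a : ℕ => labf K k s (p ^ (a + 1))) (labc K k p * r * (1 - r)⁻¹) := by
    have h := (hasSum_geometric_of_lt_one r0.le (by linarith)).mul_left (labc K k p * r)
    refine h.congr_fun ?_ |> fun h => h
    intro a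
    exact labf_pow K k s hp a
  have h2 : Summable (fun n : ℕ => labf K k s (p ^ n)) := (summable_nat_add_iff 1).1 h1.summable
  refine ⟨h2, ?_⟩
  rw [h2.tsum_eq_zero_add, h1.tsum_eq, pow_zero, labf_one]
  have h3 : (1 - r)⁻¹ ≤ 2 := by
    rw [inv_le_comm₀ (by linarith) (by norm_num)]
    norm_num
    linarith
  have h4 : labc K k p * r * (1 - r)⁻¹ ≤ 2 * labc K k p * r := by
    have h5 : 0 ≤ labc K k p * r := by positivity
    nlinarith
  have h6 := Real.add_one_le_exp (2 * labc K k p * r)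
  linarith

private lemma lab_primes (k N : ℕ) (s : ℝ) (hs : 1 < s) (hk : 3 ≤ k) :
    ∑ p ∈ (N.primesBelow).filter (fun p => p % k = 1), (k : ℝ) * ((p : ℝ) ^ s)⁻¹ ≤
      ∑' n : ℕ, ((n : ℝ) ^ s)⁻¹ := by
  have hk0 : (0 : ℝ) < k := by exact_mod_cast (by omega : 0 < k)
  have hk1 : (1 : ℝ) ≤ k := by exact_mod_cast (by omega : 1 ≤ k)
  have h1 : ∀ p ∈ (N.primesBelow).filter (fun p => p % k = 1),
      (k : ℝ) * ((p : ℝ) ^ s)⁻¹ ≤ (((p / k : ℕ) : ℝ) ^ s)⁻¹ := by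
    intro p hp
    rw [Finset.mem_filter, Nat.mem_primesBelow] at hp
    obtain ⟨⟨_, hpp⟩, hpk⟩ := hp
    have h2 : k * (p / k) + p % k = p := Nat.div_add_mod p k
    have h3 : 1 ≤ p / k := by
      by_contra hcon
      have h4 : p / k = 0 := Nat.lt_one_iff.1 (not_le.1 hcon)
      rw [h4, hpk] at h2
      have := hpp.one_lt
      omega
    have h5 : ((k : ℝ) * ((p / k : ℕ) : ℝ)) ≤ p := by
      have : k * (p / k) ≤ p := by omega
      exact_mod_cast this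
    have h6 : (0 : ℝ) < ((p / k : ℕ) : ℝ) := by exact_mod_cast h3
    have h7 : (k : ℝ) * (((p / k : ℕ) : ℝ) ^ s) ≤ (p : ℝ) ^ s := by
      calc (k : ℝ) * (((p / k : ℕ) : ℝ) ^ s)
          ≤ (k : ℝ) ^ s * (((p / k : ℕ) : ℝ) ^ s) := by
            refine mul_le_mul_of_nonneg_right ?_ (by positivity)
            calc (k : ℝ) = (k : ℝ) ^ (1 : ℝ) := (Real.rpow_one _).symm
              _ ≤ (k : ℝ) ^ s := Real.rpow_le_rpow_of_exponent_le hk1 hs.le
        _ = ((k : ℝ) * ((p / k : ℕ) : ℝ)) ^ s := by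
            rw [Real.mul_rpow hk0.le h6.le]
        _ ≤ (p : ℝ) ^ s := Real.rpow_le_rpow (by positivity) h5 (by linarith)
    have h8 : (0 : ℝ) < ((p / k : ℕ) : ℝ) ^ s := Real.rpow_pos_of_pos h6 s
    have h9 : (0 : ℝ) < (p : ℝ) ^ s := by
      apply Real.rpow_pos_of_pos
      exact_mod_cast hpp.pos
    rw [← div_eq_mul_inv, div_le_iff₀ h9, ← div_eq_inv_mul, le_div_iff₀ h8]
    exact h7
  have hinj : Set.InjOn (fun p : ℕ => p / k)
      ((N.primesBelow).filter (fun p => p % k = 1) : Set ℕ) := by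
    intro p hp q hq hpq
    simp only [Finset.coe_filter, Set.mem_ofPred_eq] at hp hq
    simp only at hpq
    have h2 : k * (p / k) + p % k = p := Nat.div_add_mod p k
    have h3 : k * (q / k) + q % k = q := Nat.div_add_mod q k
    rw [← h2, ← h3, hpq, hp.2, hq.2]
  have hsum : Summable (fun n : ℕ => ((n : ℝ) ^ s)⁻¹) := Real.summable_nat_rpow_inv.2 hs
  calc ∑ p ∈ (N.primesBelow).filter (fun p => p % k = 1), (k : ℝ) * ((p : ℝ) ^ s)⁻¹
      ≤ ∑ p ∈ (N.primesBelow).filter (fun p => p % k = 1), (((p / k : ℕ) : ℝ) ^ s)⁻¹ :=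
        Finset.sum_le_sum h1
    _ = ∑ n ∈ ((N.primesBelow).filter (fun p => p % k = 1)).image (fun p => p / k),
          ((n : ℝ) ^ s)⁻¹ := by
        rw [Finset.sum_image hinj]
    _ ≤ ∑' n : ℕ, ((n : ℝ) ^ s)⁻¹ := hsum.sum_le_tsum _ (fun n _ => by positivity)

private lemma lab_prod (K k N : ℕ) (s : ℝ) (hs : 1 < s) (hk : 3 ≤ k) :
    ∏ p ∈ N.primesBelow, ∑' n : ℕ, labf K k s (p ^ n) ≤
      Real.exp (4 * K * ∑' n : ℕ, ((n : ℝ) ^ s)⁻¹) := by
  have hsum : Summable (fun n : ℕ => ((n : ℝ) ^ s)⁻¹) := Real.summable_nat_rpow_inv.2 hs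
  have h1 : ∏ p ∈ N.primesBelow, ∑' n : ℕ, labf K k s (p ^ n) ≤
      ∏ p ∈ N.primesBelow, Real.exp (2 * labc K k p * ((p : ℝ) ^ s)⁻¹) := by
    apply Finset.prod_le_prod
    · intro p _
      exact tsum_nonneg fun n => labf_nonneg _ _ _ _
    · intro p hp
      exact (lab_sum K k s hs (Nat.prime_of_mem_primesBelow hp)).2
  refine h1.trans ?_
  rw [← Real.exp_sum]
  apply Real.exp_le_exp.2
  have h2 : ∀ p ∈ N.primesBelow, 2 * labc K k p * ((p : ℝ) ^ s)⁻¹ ≤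
      2 * K * ((p : ℝ) ^ s)⁻¹ + 2 * K * (if p % k = 1 then (k : ℝ) * ((p : ℝ) ^ s)⁻¹ else 0) := by
    intro p _
    have h3 : 0 ≤ ((p : ℝ) ^ s)⁻¹ := by positivity
    have h4 : (0 : ℝ) ≤ K := by positivity
    unfold labc
    split_ifs
    · have h5 : 0 ≤ 2 * (K : ℝ) * ((p : ℝ) ^ s)⁻¹ := by positivity
      nlinarith
    · nlinarith
  have h5 : ∑ p ∈ N.primesBelow, ((p : ℝ) ^ s)⁻¹ ≤ ∑' n : ℕ, ((n : ℝ) ^ s)⁻¹ :=
    hsum.sum_le_tsum _ (fun n _ => by positivity)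
  have h6 := lab_primes k N s hs hk
  rw [Finset.sum_filter] at h6
  have h7 : (0 : ℝ) ≤ K := by positivity
  calc ∑ p ∈ N.primesBelow, 2 * labc K k p * ((p : ℝ) ^ s)⁻¹
      ≤ ∑ p ∈ N.primesBelow, (2 * K * ((p : ℝ) ^ s)⁻¹ +
          2 * K * (if p % k = 1 then (k : ℝ) * ((p : ℝ) ^ s)⁻¹ else 0)) := Finset.sum_le_sum h2
    _ = 2 * K * ∑ p ∈ N.primesBelow, ((p : ℝ) ^ s)⁻¹ +
          2 * K * ∑ p ∈ N.primesBelow, (if p % k = 1 then (k : ℝ) * ((p : ℝ) ^ s)⁻¹ else 0) := by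
        rw [Finset.sum_add_distrib, Finset.mul_sum, Finset.mul_sum]
    _ ≤ 2 * K * (∑' n : ℕ, ((n : ℝ) ^ s)⁻¹) + 2 * K * (∑' n : ℕ, ((n : ℝ) ^ s)⁻¹) := by
        gcongr
    _ = 4 * K * ∑' n : ℕ, ((n : ℝ) ^ s)⁻¹ := by ring

theorem lab_thm : S_LAB := by
  classical
  intro K ε hK hε
  have hs : 1 < 1 + ε := by linarith
  set Z : ℝ := ∑' n : ℕ, ((n : ℝ) ^ (1 + ε))⁻¹ with hZ
  have hZ0 : 0 ≤ Z := tsum_nonneg fun n => by positivity
  refine ⟨Real.exp (4 * K * Z), ?_, ?_⟩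
  · rw [← Real.exp_zero]
    apply Real.exp_le_exp.2
    positivity
  intro k Y hk hY
  set M : ℕ := ⌊Y⌋₊ with hM
  have h1 : ∀ n ∈ Icc 1 M, (K : ℝ) ^ om n * (k : ℝ) ^ omk k n / n ≤
      Y ^ ε * labf K k (1 + ε) n := by
    intro n hn
    rw [Finset.mem_Icc] at hn
    have hn0 : (0 : ℝ) < n := by exact_mod_cast hn.1
    have hnY : (n : ℝ) ≤ Y := (Nat.le_floor_iff (by linarith)).1 hn.2
    unfold labf
    rw [Real.rpow_add hn0, Real.rpow_one, mul_inv]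
    have h2 : (1 : ℝ) ≤ Y ^ ε * ((n : ℝ) ^ ε)⁻¹ := by
      rw [← div_eq_mul_inv, le_div_iff₀ (by positivity), one_mul]
      exact Real.rpow_le_rpow hn0.le hnY hε.le
    have h3 : 0 ≤ (K : ℝ) ^ om n * (k : ℝ) ^ omk k n / n := by positivity
    calc (K : ℝ) ^ om n * (k : ℝ) ^ omk k n / n
        = (K : ℝ) ^ om n * (k : ℝ) ^ omk k n / n * 1 := (mul_one _).symm
      _ ≤ (K : ℝ) ^ om n * (k : ℝ) ^ omk k n / n * (Y ^ ε * ((n : ℝ) ^ ε)⁻¹) :=
          mul_le_mul_of_nonneg_left h2 h3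
      _ = Y ^ ε * ((K : ℝ) ^ om n * (k : ℝ) ^ omk k n * ((n : ℝ)⁻¹ * ((n : ℝ) ^ ε)⁻¹)) := by
          rw [div_eq_mul_inv]; ring
  have h4 := (EulerProduct.summable_and_hasSum_smoothNumbers_prod_primesBelow_tsum
    (f := labf K k (1 + ε)) (labf_one K k (1 + ε)) (fun {m n} h => labf_mul K k (1 + ε) h)
    (fun {p} hp => by
      have := (lab_sum K k (1 + ε) hs hp).1
      simpa [Real.norm_eq_abs, abs_of_nonneg (labf_nonneg K k (1 + ε) _)] using this) (M + 1)).2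
  have h5 : ∑ n ∈ Icc 1 M, labf K k (1 + ε) n ≤ Real.exp (4 * K * Z) := by
    have hsub : ∀ n ∈ Icc 1 M, n ∈ (M + 1).smoothNumbers := by
      intro n hn
      rw [Finset.mem_Icc] at hn
      exact Nat.mem_smoothNumbers_of_lt (by omega) (by omega)
    rw [← Finset.sum_subtype_of_mem (labf K k (1 + ε)) hsub]
    refine (sum_le_hasSum _ (fun i _ => labf_nonneg _ _ _ _) h4).trans ?_
    exact lab_prod K k (M + 1) (1 + ε) hs hk
  calc ∑ n ∈ Icc 1 M, (K : ℝ) ^ om n * (k : ℝ) ^ omk k n / n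
      ≤ ∑ n ∈ Icc 1 M, Y ^ ε * labf K k (1 + ε) n := Finset.sum_le_sum h1
    _ = Y ^ ε * ∑ n ∈ Icc 1 M, labf K k (1 + ε) n := by rw [Finset.mul_sum]
    _ ≤ Y ^ ε * Real.exp (4 * K * Z) := mul_le_mul_of_nonneg_left h5 (by positivity)
    _ = Real.exp (4 * K * Z) * Y ^ ε := by ring

end Pool.Agent.H98.ABCR
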